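import Pool.Agent.Work.MP_88b7aa_gt.D.P10_11_11i.F0

/-! The class is done. -/

set_option autoImplicit false

namespace Pool.Agent.Work.MP_88b7aa_gt.D.P10_11_11i

open Pool.Agent.Work.MP_88b7aa_gt.PQ
open Pool.Agent.Work.MP_88b7aa_gt.Kc

theorem g0 : CGood (KS (.ex 10) (.ex 11) (.iv 11 0)) H.k ⟨267698610774696, 0, 0, 0, 0, 8⟩ ⟨270073262402179, 0, 0, 0, 0, 8⟩ ⟨272919401857024, 0, 2851858284544, 0, 0, 0⟩ ⟨126468636016640, 0, -504683823104, 0, 0, 0⟩ :=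
  mC_good H_ok M0.k LB.nil LC.nil

theorem g1 : CGood (KS (.ex 10) (.ex 11) (.iv 11 0)) H.k ⟨267698610774696, 0, 0, 0, 0, 8⟩ ⟨270073262402179, 0, 0, 0, 0, 8⟩ ⟨278623118426112, 0, 2851858284544, 0, 0, 0⟩ ⟨125516304613376, 0, -448427720704, 0, 0, 0⟩ :=
  mC_good H_ok M1.k LB.nil LC.nil

theorem g2 : CGood (KS (.ex 10) (.ex 11) (.iv 11 0)) H.k ⟨267698610774696, 0, 0, 0, 0, 8⟩ ⟨270073262402179, 0, 0, 0, 0, 8⟩ ⟨275771260141568, 0, 5703716569088, 0, 0, 0⟩ ⟨119825460363264, 0, -951855349760, 0, 0, 0⟩ :=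
  mC_good H_ok M2.k LB.nil (LC.cons g0 (LC.cons g1 LC.nil))

theorem g3 : CGood (KS (.ex 10) (.ex 11) (.iv 11 0)) H.k ⟨267698610774696, 0, 0, 0, 0, 8⟩ ⟨270073262402179, 0, 0, 0, 0, 8⟩ ⟨275771260141568, 0, 5703716569088, 0, 0, 0⟩ ⟨55693814005760, 0, -951855349760, 0, 0, 0⟩ :=
  mC_good H_ok M3.k LB.nil (LC.cons g2 LC.nil)

theorem g4 : CGood (KS (.ex 10) (.ex 11) (.iv 11 0)) H.k ⟨267698610774696, 0, 0, 0, 0, 8⟩ ⟨270073262402179, 0, 0, 0, 0, 8⟩ ⟨275771260141568, 0, 5703716569088, 0, 0, 0⟩ ⟨0, 0, 0, 0, 0, 0⟩ :=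
  mC_good H_ok M4.k LB.nil (LC.cons g3 LC.nil)

theorem done : Done (KS (.ex 10) (.ex 11) (.iv 11 0)) := fin (by decide +kernel) g4

end Pool.Agent.Work.MP_88b7aa_gt.D.P10_11_11i
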